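import Pool.Agent.U41.PH.Stm0

set_option autoImplicit false

/-! Package DE of project PH (helper41): derivations extend to algebraic extensions (helper491). -/

namespace Pool.Agent.U41.PH

open MvPolynomial TensorProduct

/-- extension of derivations from a subring to an algebraic extension -/
theorem de_ext {L : Type} [Field L] [CharZero L] (A : Subring L)
    (halg : ∀ z : L, ∃ p : Polynomial A, p ≠ 0 ∧ Polynomial.aeval z p = 0)
    (d : Derivation ℤ A L) : ∃ D : Derivation ℤ L L, ∀ a : A, D (a : L) = d a := by
  have hinj : Function.Injective (algebraMap A L) := Subtype.val_injective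
  have : FaithfulSMul A L := (faithfulSMul_iff_algebraMap_injective A L).2 hinj
  let _ : Algebra (FractionRing A) L := FractionRing.liftAlgebra A L
  have : IsScalarTower A (FractionRing A) L := FractionRing.isScalarTower_liftAlgebra A L
  have : Algebra.IsAlgebraic A L := ⟨halg⟩
  have : Algebra.IsAlgebraic (FractionRing A) L := 
    Algebra.IsAlgebraic.extendScalars (R := A) (IsFractionRing.injective A (FractionRing A))
  have : CharZero A := by infer_instance
  have : CharZero (FractionRing A) := by infer_instance
  have : Algebra.IsSeparable (FractionRing A) L := inferInstance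
  have : Algebra.FormallyEtale (FractionRing A) L := Algebra.FormallyEtale.of_isSeparable _ _
  have : Algebra.FormallyEtale A (FractionRing A) :=
    Algebra.FormallyEtale.of_isLocalization (nonZeroDivisors A)
  have : Algebra.FormallyEtale A L := Algebra.FormallyEtale.comp A (FractionRing A) L
  let e := KaehlerDifferential.tensorKaehlerEquivOfFormallyEtale ℤ A L
  let l : L ⊗[A] KaehlerDifferential ℤ A →ₗ[L] L := d.liftKaehlerDifferential.liftBaseChange L
  refine ⟨(l.comp e.symm.toLinearMap).compDer (KaehlerDifferential.D ℤ L), fun a => ?_⟩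
  change l (e.symm (KaehlerDifferential.D ℤ L (algebraMap A L a))) = d a
  rw [KaehlerDifferential.tensorKaehlerEquivOfFormallyEtale_symm_D_algebraMap]
  rw [LinearMap.liftBaseChange_tmul, one_smul, Derivation.liftKaehlerDifferential_comp_D]

theorem DE_ok : S_DE := by
  intro k L _ _ φ u hker halg
  let Δ : MvPolynomial (Fin k) ℤ → L := fun f => ∑ i, φ (pderiv i f) * u i
  have hadd : ∀ f g, Δ (f + g) = Δ f + Δ g := by
    intro f g
    simp only [Δ, map_add, add_mul, Finset.sum_add_distrib]
  have hmul : ∀ f g, Δ (f * g) = φ f * Δ g + φ g * Δ f := by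
    intro f g
    simp only [Δ, Finset.mul_sum, ← Finset.sum_add_distrib]
    refine Finset.sum_congr rfl fun i _ => ?_
    rw [Derivation.leibniz, smul_eq_mul, smul_eq_mul, map_add, map_mul, map_mul]
    ring
  have hwd : ∀ f g, φ f = φ g → Δ f = Δ g := by
    intro f g h
    have h1 := hker (f - g) (by rw [map_sub, h, sub_self])
    have h2 : Δ f = Δ (f - g) + Δ g := by rw [← hadd, sub_add_cancel]
    rw [h2]
    change (∑ i, φ (pderiv i (f - g)) * u i) + _ = _
    rw [h1, zero_add]
  let A : Subring L := φ.range
  have hpre : ∀ a : A, ∃ f, φ f = a := fun a => a.2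
  choose s hs using hpre
  let δ : A →+ L :=
    { toFun := fun a => Δ (s a)
      map_zero' := by
        have h1 : Δ (s 0) = Δ 0 := hwd _ _ (by rw [hs, map_zero]; rfl)
        rw [h1]
        simp [Δ]
      map_add' := fun a b => by
        have h1 : Δ (s (a + b)) = Δ (s a + s b) := hwd _ _ (by rw [hs, map_add, hs, hs]; rfl)
        rw [h1, hadd] }
  let d : Derivation ℤ A L := Derivation.mk' δ.toIntLinearMap (fun a b => by
    change Δ (s (a * b)) = a • Δ (s b) + b • Δ (s a)
    have h1 : Δ (s (a * b)) = Δ (s a * s b) := hwd _ _ (by rw [hs, map_mul, hs, hs]; rfl)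
    rw [h1, hmul, hs, hs]
    rfl)
  obtain ⟨D, hD⟩ := de_ext A (by
    intro z
    obtain ⟨p, hp1, hp2⟩ := halg z
    have h1 : (p.map φ.rangeRestrict).map (algebraMap A L) = p.map φ := by
      rw [Polynomial.map_map]
      rfl
    refine ⟨p.map φ.rangeRestrict, ?_, ?_⟩
    · intro h0
      rw [h0, Polynomial.map_zero] at h1
      exact hp1 h1.symm
    · rw [Polynomial.aeval_def, ← Polynomial.eval_map, h1]
      exact hp2) d
  refine ⟨D, fun f => ?_⟩
  have h1 := hD ⟨φ f, ⟨f, rfl⟩⟩
  change D (φ f) = _ at h1
  rw [h1]
  exact hwd _ _ (hs _)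

end Pool.Agent.U41.PH
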